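import Mathlib
import Pool.Agent.Helper95.Burnside.Defs
import Pool.Agent.Helper95.Burnside.Main

/-!
# The Burnside process on unlabelled 2-regular graphs is rapidly mixing

Outline of the proof. The Dirichlet form of the Burnside chain is
`E(f) = E[Var(f(α) | g)]`, an average over `g` of variances over `fix(g)`. Hence, for two states
`α, β` whose stabilizers have a common subset `H` with `|G_α|, |G_β| ≤ D |H|`, the energy controls
the average over relabellings `σ` of `(f(σ α) - f(σ β))²`. Taking for `H` the automorphisms
fixing one or two vertices (relabelling by transpositions), or fixing pointwise the union of at
most four cycles (replacing at most four cycles by at most four others), this reduces the claim to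
a Poincaré inequality, with polynomial constant, for the uniform distribution on partitions of `n`
with parts at least `3` and moves which replace at most four parts. This is proved by canonical
paths from `λ` to `μ`: order the part sizes cyclically and exchange the multiplicities of `λ` for
those of `μ` on a growing cyclic interval of sizes, keeping the total equal to `n`. That this is
possible is the mountain climbing theorem (two climbers starting at a valley and meeting at the
top, always at the same height), applied to the partial sums of the differences of weights; the
cycle lemma provides the starting point. The partition on the path and the complementary partition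
determine `λ` and `μ` up to polynomially many choices, so the congestion is polynomial.
-/

set_option autoImplicit false

namespace Pool.Agent.Results.MP_e7c5f7_pr.RapidMixing

open Pool.Agent.Helper95.Burnside

/-- The chains `M(Ω_n, S_n)`, `n ≥ 3`, on 2-regular graphs are rapidly mixing:
`τ(ε) ≤ ⌈(n + 2)^36 (2 n² + 2 log (1/ε))⌉` for all `n ≥ 3` and `ε ∈ (0, 1]`. -/
theorem result (n : ℕ) (hn : 3 ≤ n) (ε : ℝ) (hε : 0 < ε) (_hε1 : ε ≤ 1) :
    tau (Equiv.Perm (Fin n)) (TwoRegular n) ε ≤
      (⌈((n : ℝ) + 2) ^ 36 * (2 * (n : ℝ) ^ 2 + 2 * Real.log (1 / ε))⌉₊ : ℕ) :=
  Pool.Agent.Helper95.Burnside.tau_le hn hε

end Pool.Agent.Results.MP_e7c5f7_pr.RapidMixing
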